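import Pool.Agent.N407.EP.Dim2

/-!
# The exponent pair bound for the translates of functions close to a power function: the dimension of the exceptional set

Let `ε > 0`, let `B`, `d` be natural numbers and let `α` be a real number which is not a positive integer (`α = 0` stands for the
logarithm). For every `N` we consider up to `N ^ B` arbitrary smooth functions `f = f_{N, j}` on `[N, 2N + 1]` which are close to
functions with the derivative `T x ^ (α - 1)`, `T = T_{N, j}`, up to the factor `c0 / N ^ C` for finitely many derivatives; their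
parameter `F` in the definition of the admissible functions is about `T N ^ α`. Let `N ^ A ≤ T N ^ α ≤ N ^ D`, `A` depending on
`ε, B, d` only. We prove: the set of the translations `u` in `[0, 1]` for which the bound of the pair `(0, 0)`

`|∑_{N1 ≤ n ≤ N2} e(f(n + u) + t g(n + u) + Q(n))| ≤ (N2 - N1 + 1) ^ (1/2) N ^ ε`, `N ≤ N1 ≤ N2 ≤ 2N`,

for all `j`, all `t ≥ 0` with `t N ^ α ≤ N ^ B` (`g' = x ^ (α - 1)`) and all real polynomials `Q` of degree at most `d`, fails for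
infinitely many `N` has Hausdorff dimension at most `1 - B / D`. So with `B ≥ 1` it is smaller than `1`, for every `D`.

Proof idea: at the scale `N` the exceptional set has measure `O(N ^ (- 2 B - 2))` for each function (`NearPowerFunctions`), and a
translation by `N ^ (-D)` changes the sums by a bounded quantity only, so that the exceptional set is covered by
`O(N ^ (D - B - 2))` intervals of length `N ^ (-D)`.
-/

set_option autoImplicit false

namespace Pool.Agent.Results.MP_493793_nt.ExceptionalTranslates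

open Filter

/-- the sum of `e(f(n + u) + t g(n + u) + Q(n))` over `N1 ≤ n ≤ N2` -/
noncomputable def S (f g : ℝ → ℝ) (t : ℝ) (Q : Polynomial ℝ) (u : ℝ) (N1 N2 : ℕ) : ℂ :=
  ∑ n ∈ Finset.Icc N1 N2, Complex.exp (2 * (Real.pi : ℂ) * Complex.I *
    ((f ((n : ℝ) + u) + t * g ((n : ℝ) + u) + Q.eval (n : ℝ) : ℝ) : ℂ))

/-- `φ 0` is close to a function with the derivative `T x ^ (α - 1)` on `[N, 2 N + 1]`: it has there the derivatives `φ 1`,
`φ 2`, ..., and these are the derivatives of that function up to the factor `c`, up to the order `P + 1` -/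
def Near (α c : ℝ) (P N : ℕ) (T : ℝ) (φ : ℕ → ℝ → ℝ) : Prop :=
  (∀ i ≤ P, ∀ x ∈ Set.Icc (N : ℝ) (2 * N + 1), HasDerivAt (φ i) (φ (i + 1) x) x) ∧
  (∀ p ≤ P, ∀ x ∈ Set.Icc (N : ℝ) (2 * N + 1),
    |φ (p + 1) x - T * (∏ i ∈ Finset.range p, (α - 1 - i)) * x ^ (α - 1 - p)| ≤ c * (T * x ^ (α - 1 - p)))

/-- the bound of the pair `(0, 0)` for the translates by `u` of `f` and of the functions `f + t g`, `t N ^ α ≤ N ^ B`, with all
real polynomials of degree at most `d`, over all intervals `[N1, N2]` in `[N, 2 N]` -/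
def Good (ε α : ℝ) (B d N : ℕ) (f g : ℝ → ℝ) (u : ℝ) : Prop :=
  ∀ t : ℝ, 0 ≤ t → t * (N : ℝ) ^ α ≤ (N : ℝ) ^ B → ∀ Q : Polynomial ℝ, Q.natDegree ≤ d →
    ∀ N1 N2 : ℕ, N ≤ N1 → N1 ≤ N2 → N2 ≤ 2 * N →
      ‖S f g t Q u N1 N2‖ ≤ ((N2 : ℝ) - N1 + 1) ^ (1 / 2 : ℝ) * (N : ℝ) ^ ε

/-- **The dimension of the set of the exceptional translates.** Let `ε > 0` and let `B`, `d` be natural numbers. There are `A`,
`C`, `P` such that for every real `α` which is not a positive integer there is `c0 > 0` with the following property. Let `D > B`,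
let `g` have the derivative `x ^ (α - 1)`, and let `N ^ A ≤ T_{N, j} N ^ α ≤ N ^ D` for `N ≥ 1`, `j < N ^ B`. (1) For all
functions `f_{N, j} = φ N j 0` which are close to functions with the derivatives `T_{N, j} x ^ (α - 1)` (`Near`, with the factor
`c0 / N ^ C` and `P + 1` derivatives) the set of the `u` in `[0, 1]` for which the bound (`Good`) fails for infinitely many `N`
for some `j < N ^ B` has Hausdorff dimension at most `1 - B / D`. (2) In particular this holds for the functions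
`f_{N, j} = T_{N, j} g`. -/
theorem result : ∀ ε : ℝ, 0 < ε → ∀ B d : ℕ, ∃ A C P : ℕ, ∀ α : ℝ, (∀ m : ℕ, α ≠ m + 1) →
    ∃ c0 : ℝ, 0 < c0 ∧ ∀ D : ℕ, B < D → ∀ g : ℝ → ℝ, (∀ x : ℝ, 0 < x → HasDerivAt g (x ^ (α - 1)) x) →
      ∀ T : ℕ → ℕ → ℝ, (∀ N j : ℕ, 1 ≤ N → j < N ^ B →
        (N : ℝ) ^ A ≤ T N j * (N : ℝ) ^ α ∧ T N j * (N : ℝ) ^ α ≤ (N : ℝ) ^ D) →
      (∀ φ : ℕ → ℕ → ℕ → ℝ → ℝ, (∀ N j : ℕ, 1 ≤ N → j < N ^ B → Near α (c0 / (N : ℝ) ^ C) P N (T N j) (φ N j)) →
        dimH {u : ℝ | u ∈ Set.Icc (0 : ℝ) 1 ∧ ¬ ∀ᶠ N : ℕ in atTop, ∀ j < N ^ B, Good ε α B d N (φ N j 0) g u} ≤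
          ENNReal.ofReal (1 - (B : ℝ) / D)) ∧
      dimH {u : ℝ | u ∈ Set.Icc (0 : ℝ) 1 ∧ ¬ ∀ᶠ N : ℕ in atTop, ∀ j < N ^ B,
        Good ε α B d N (fun x => T N j * g x) g u} ≤ ENNReal.ofReal (1 - (B : ℝ) / D) := by
  intro ε hε B d
  obtain ⟨A, C, P, h0⟩ := Pool.Agent.N407.EP.dim_main ε hε B d
  refine ⟨A, C, P, fun α hα => ?_⟩
  obtain ⟨c0, hc0, h1⟩ := h0 α hα
  refine ⟨c0, hc0, fun D hD g hg T hT => ?_⟩
  have key : ∀ φ : ℕ → ℕ → ℕ → ℝ → ℝ, (∀ N j : ℕ, 1 ≤ N → j < N ^ B → Near α (c0 / (N : ℝ) ^ C) P N (T N j) (φ N j)) →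
      dimH {u : ℝ | u ∈ Set.Icc (0 : ℝ) 1 ∧ ¬ ∀ᶠ N : ℕ in atTop, ∀ j < N ^ B, Good ε α B d N (φ N j 0) g u} ≤
        ENNReal.ofReal (1 - (B : ℝ) / D) :=
    fun φ hφ => h1 D hD T φ g hg (fun N j hN hj => ⟨(hT N j hN hj).1, (hT N j hN hj).2, hφ N j hN hj⟩)
  refine ⟨key, ?_⟩
  refine key (fun N j i x => T N j * Pool.Agent.Y933.KI.gd (α - 1) g i x) (fun N j hN hj => ⟨?_, ?_⟩)
  · intro i _ x hx
    have hx0 : 0 < x := by
      have : (1 : ℝ) ≤ N := by exact_mod_cast hN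
      linarith [hx.1]
    exact (Pool.Agent.Y933.KI.gd_der hg i hx0).const_mul (T N j)
  · intro p _ x hx
    have hN' : (1 : ℝ) ≤ N := by exact_mod_cast hN
    have hx0 : 0 < x := by linarith [hx.1]
    have e : T N j * Pool.Agent.Y933.KI.gd (α - 1) g (p + 1) x -
        T N j * (∏ i ∈ Finset.range p, (α - 1 - i)) * x ^ (α - 1 - p) = 0 := by
      show T N j * (Pool.Agent.Y933.KI.fp (α - 1) p * x ^ (α - 1 - p)) - _ = 0
      rw [Pool.Agent.Y933.KI.fp]
      ring
    rw [e, abs_zero]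
    have hT0 : 0 < T N j := by
      have h2 : 0 < T N j * (N : ℝ) ^ α := lt_of_lt_of_le (by positivity) (hT N j hN hj).1
      exact pos_of_mul_pos_left h2 (by positivity)
    positivity

end Pool.Agent.Results.MP_493793_nt.ExceptionalTranslates
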