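import Pool.Agent.N407.EP.Rand

/-!
# The exponent pair bound for random and metric translates of functions close to a power function

Let `ε > 0`, let `B`, `d` be natural numbers and let `α` be a real number which is not a positive integer (`α = 0` stands for the
logarithm). For every `N` we consider up to `N ^ B` arbitrary smooth functions `f = f_{N, j}` on `[N, 2N + 1]` which are close to
functions with the derivative `T x ^ (α - 1)`, `T = T_{N, j}`, up to the factor `c0 / N ^ C` for finitely many derivatives; their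
parameter `F` in the definition of the admissible functions is about `T N ^ α`. We assume `T N ^ α ≥ N ^ A`, `A` depending on
`ε, B, d` only, and no upper bound. A translation `u` is good for `f` at the scale `N` if the bound of the pair `(0, 0)`

`|∑_{N1 ≤ n ≤ N2} e(f(n + u) + t g(n + u) + Q(n))| ≤ (N2 - N1 + 1) ^ (1/2) N ^ ε`, `N ≤ N1 ≤ N2 ≤ 2N`,

holds for all `t ≥ 0` with `t N ^ α ≤ N ^ B` (`g' = x ^ (α - 1)`) and all real polynomials `Q` of degree at most `d`. We prove: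

(1) Let `X_{N, j}` be random variables, with ANY dependence, such that `P(X_{N, j} ∈ S) ≤ L N ^ B |S|` for all measurable `S` in
`[0, 1]`. Almost surely, for all large `N` and ALL `j < N ^ B`, the translation `X_{N, j}` is good for `f_{N, j}`.

(2) Let `a_{N, j}`, `b_{N, j}` be ANY real numbers with `|a_{N, j}| ≥ N ^ (-B)`; for example `a_{N, j} = a_j` with an arbitrary
sequence of real numbers `|a_j| ≥ 1`. For almost all real `x`, for all large `N` and ALL `j < N ^ B` the translation by the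
fractional part of `a_{N, j} x + b_{N, j}` is good for `f_{N, j}`.
-/

set_option autoImplicit false

namespace Pool.Agent.Results.MP_493793_nt.RandomTranslates

open Filter MeasureTheory

/-- the sum of `e(f(n + u) + t g(n + u) + Q(n))` over `N1 ≤ n ≤ N2` -/
noncomputable def S (f g : ℝ → ℝ) (t : ℝ) (Q : Polynomial ℝ) (u : ℝ) (N1 N2 : ℕ) : ℂ :=
  ∑ n ∈ Finset.Icc N1 N2, Complex.exp (2 * (Real.pi : ℂ) * Complex.I *
    ((f ((n : ℝ) + u) + t * g ((n : ℝ) + u) + Q.eval (n : ℝ) : ℝ) : ℂ))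

/-- `φ 0` is close to a function with the derivative `T x ^ (α - 1)` on `[N, 2 N + 1]`: it has there the derivatives `φ 1`,
`φ 2`, ..., and these are the derivatives of that function up to the factor `c`, up to the order `P + 1` -/
def Near (α c : ℝ) (P N : ℕ) (T : ℝ) (φ : ℕ → ℝ → ℝ) : Prop :=
  (∀ i ≤ P, ∀ x ∈ Set.Icc (N : ℝ) (2 * N + 1), HasDerivAt (φ i) (φ (i + 1) x) x) ∧
  (∀ p ≤ P, ∀ x ∈ Set.Icc (N : ℝ) (2 * N + 1),
    |φ (p + 1) x - T * (∏ i ∈ Finset.range p, (α - 1 - i)) * x ^ (α - 1 - p)| ≤ c * (T * x ^ (α - 1 - p)))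

/-- the bound of the pair `(0, 0)` for the translates by `u` of `f` and of the functions `f + t g`, `t N ^ α ≤ N ^ B`, with all
real polynomials of degree at most `d`, over all intervals `[N1, N2]` in `[N, 2 N]` -/
def Good (ε α : ℝ) (B d N : ℕ) (f g : ℝ → ℝ) (u : ℝ) : Prop :=
  ∀ t : ℝ, 0 ≤ t → t * (N : ℝ) ^ α ≤ (N : ℝ) ^ B → ∀ Q : Polynomial ℝ, Q.natDegree ≤ d →
    ∀ N1 N2 : ℕ, N ≤ N1 → N1 ≤ N2 → N2 ≤ 2 * N →
      ‖S f g t Q u N1 N2‖ ≤ ((N2 : ℝ) - N1 + 1) ^ (1 / 2 : ℝ) * (N : ℝ) ^ ε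

/-- **Random and metric translates.** Let `ε > 0` and let `B`, `d` be natural numbers. There are `A`, `C`, `P` such that for
every real `α` which is not a positive integer there is `c0 > 0` with the following property. Let `g` have the derivative
`x ^ (α - 1)`, let `T_{N, j} N ^ α ≥ N ^ A` for `N ≥ 1`, `j < N ^ B`, and let the functions `f_{N, j} = φ N j 0` be close to
functions with the derivatives `T_{N, j} x ^ (α - 1)` (`Near`, with the factor `c0 / N ^ C` and `P + 1` derivatives). (1) For all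
random variables `X_{N, j}` with `P(X_{N, j} ∈ S) ≤ L N ^ B |S|` for all measurable `S ⊆ [0, 1]`, almost surely, for all large
`N` and all `j < N ^ B` with `X_{N, j} ∈ [0, 1]`, the bound (`Good`) holds for the translation by `X_{N, j}`. (2) For all real
`a_{N, j}`, `b_{N, j}` with `|a_{N, j}| ≥ N ^ (-B)`, for almost all real `x`, for all large `N` and all `j < N ^ B`, the bound
holds for the translation by the fractional part of `a_{N, j} x + b_{N, j}`. -/
theorem result : ∀ ε : ℝ, 0 < ε → ∀ B d : ℕ, ∃ A C P : ℕ, ∀ α : ℝ, (∀ m : ℕ, α ≠ m + 1) →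
    ∃ c0 : ℝ, 0 < c0 ∧ ∀ g : ℝ → ℝ, (∀ x : ℝ, 0 < x → HasDerivAt g (x ^ (α - 1)) x) → ∀ T : ℕ → ℕ → ℝ,
      ∀ φ : ℕ → ℕ → ℕ → ℝ → ℝ,
      (∀ N j : ℕ, 1 ≤ N → j < N ^ B → (N : ℝ) ^ A ≤ T N j * (N : ℝ) ^ α ∧
        Near α (c0 / (N : ℝ) ^ C) P N (T N j) (φ N j)) →
      (∀ (Ω : Type) [MeasurableSpace Ω] (μ : Measure Ω) [IsProbabilityMeasure μ] (X : ℕ → ℕ → Ω → ℝ) (L : ℝ), 0 ≤ L →
        (∀ N j : ℕ, 1 ≤ N → j < N ^ B → ∀ S : Set ℝ, MeasurableSet S →
          μ {ω | X N j ω ∈ Set.Icc (0 : ℝ) 1 ∧ X N j ω ∈ S} ≤ ENNReal.ofReal (L * (N : ℝ) ^ B) * volume S) →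
        ∀ᵐ ω ∂μ, ∀ᶠ N : ℕ in atTop, ∀ j < N ^ B, X N j ω ∈ Set.Icc (0 : ℝ) 1 →
          Good ε α B d N (φ N j 0) g (X N j ω)) ∧
      ∀ a b : ℕ → ℕ → ℝ, (∀ N j : ℕ, 1 ≤ N → j < N ^ B → 1 / (N : ℝ) ^ B ≤ |a N j|) →
        ∀ᵐ x : ℝ, ∀ᶠ N : ℕ in atTop, ∀ j < N ^ B, Good ε α B d N (φ N j 0) g (Int.fract (a N j * x + b N j)) := by
  intro ε hε B d
  obtain ⟨A, C, P, h0⟩ := Pool.Agent.N407.EP.random ε hε B d
  refine ⟨A, C, P, fun α hα => ?_⟩
  obtain ⟨c0, hc0, h1⟩ := h0 α hα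
  refine ⟨c0, hc0, fun g hg T φ hφ => ⟨fun Ω _ μ _ X L hL hX => h1 g hg T φ hφ μ X L hL hX, fun a b hab => ?_⟩⟩
  have key : ∀ M : ℤ, ∀ᵐ x ∂(volume.restrict (Set.Icc (M : ℝ) (M + 1))), ∀ᶠ N : ℕ in atTop, ∀ j < N ^ B,
      Good ε α B d N (φ N j 0) g (Int.fract (a N j * x + b N j)) := by
    intro M
    have h2 := h1 g hg T φ hφ (volume.restrict (Set.Icc (M : ℝ) (M + 1))) (fun N j x => Int.fract (a N j * x + b N j)) 3
      (by norm_num) (fun N j hN hj S _ => by
        have hN1' : (1 : ℝ) ≤ N := by exact_mod_cast hN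
        have hNB : (1 : ℝ) ≤ (N : ℝ) ^ B := one_le_pow₀ hN1'
        have ha := hab N j hN hj
        have ha0 : 0 < |a N j| := lt_of_lt_of_le (by positivity) ha
        refine (measure_mono (fun x hx => hx.2)).trans
          ((Pool.Agent.N407.EP.fract_density (abs_pos.1 ha0) (b N j) M S).trans ?_)
        refine mul_le_mul' (ENNReal.ofReal_le_ofReal ?_) le_rfl
        have h3 : 2 / |a N j| ≤ 2 * (N : ℝ) ^ B := by
          rw [div_le_iff₀ ha0]
          rw [div_le_iff₀ (by positivity)] at ha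
          nlinarith
        linarith)
    filter_upwards [h2] with x hx
    filter_upwards [hx] with N hN j hj
    exact hN j hj ⟨Int.fract_nonneg _, (Int.fract_lt_one _).le⟩
  have h3 : ∀ᵐ x : ℝ, ∀ M : ℤ, x ∈ Set.Icc (M : ℝ) (M + 1) → ∀ᶠ N : ℕ in atTop, ∀ j < N ^ B,
      Good ε α B d N (φ N j 0) g (Int.fract (a N j * x + b N j)) :=
    ae_all_iff.2 (fun M => (ae_restrict_iff' measurableSet_Icc).1 (key M))
  filter_upwards [h3] with x hx
  exact hx ⌊x⌋ ⟨Int.floor_le x, (Int.lt_floor_add_one x).le⟩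

end Pool.Agent.Results.MP_493793_nt.RandomTranslates
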